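import Pool.Agent.Lib.MP_1e5ad7_co.All
import Pool.Agent.Lib.MP_1e5ad7_co.R.Main

set_option autoImplicit false

namespace Pool.Agent.Results.MP_1e5ad7_co.AllRadii

theorem result :
    ∀ r : ℝ, 0 < r → ∃ N : ℕ, 0 < N ∧
      ∀ (R : ℝ) (n : ℕ) (c : EuclideanSpace ℝ (Fin 3)) (x : Fin n → EuclideanSpace ℝ (Fin 3)),
        r ≤ R → N ≤ n →
        (∀ i j : Fin n, i ≠ j →
          Real.cosh (2 * r) ≤
            Real.sqrt (1 + ‖x i‖ ^ 2) * Real.sqrt (1 + ‖x j‖ ^ 2) - inner ℝ (x i) (x j)) →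
        (∀ i : Fin n,
          Real.sqrt (1 + ‖c‖ ^ 2) * Real.sqrt (1 + ‖x i‖ ^ 2) - inner ℝ c (x i)
            ≤ Real.cosh (R - r)) →
        (n : ℝ) * (Real.sinh (2 * r) - 2 * r) <
          max (Real.pi / Real.sqrt 18)
              (Real.sqrt 18 * (Real.arccos (1 / 3) - Real.pi / 3) - r / 4) *
            (Real.sinh (2 * R) - 2 * R) := by
  intro r r0
  have hV : ∀ R : ℝ, r ≤ R → 0 ≤ Real.sinh (2 * R) - 2 * R := fun R h =>
    sub_nonneg.2 (Real.self_le_sinh_iff.2 (by linarith))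
  rcases le_total r (37 / 200) with hr | hr
  · obtain ⟨N, N0, h⟩ := Pool.Agent.Lib.MP_1e5ad7_co.R.small r0 hr
    exact ⟨N, N0, fun R n c x h1 h2 h3 h4 => (h R n c x h1 h2 h3 h4).trans_le
      (mul_le_mul_of_nonneg_right (le_max_right _ _) (hV R h1))⟩
  · have h0 : Pool.Agent.Lib.MP_1e5ad7_co.Stmt r := by
      refine Pool.Agent.Lib.MP_1e5ad7_co.all_ranges r0 ?_
      have h1 := Real.sum_le_exp_of_nonneg (x := 37 / 100) (by norm_num) 9
      have h2 : Real.exp (37 / 100) ≤ Real.exp (2 * r) := Real.exp_le_exp.mpr (by linarith)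
      rw [Real.exp_neg, inv_le_comm₀ (Real.exp_pos _) (by norm_num)]
      refine le_trans ?_ (h1.trans h2)
      norm_num [Finset.sum_range_succ, Nat.factorial]
    obtain ⟨N, N0, h⟩ := h0
    exact ⟨N, N0, fun R n c x h1 h2 h3 h4 => (h R n c x h1 h2 h3 h4).trans_le
      (mul_le_mul_of_nonneg_right (le_max_left _ _) (hV R h1))⟩

end Pool.Agent.Results.MP_1e5ad7_co.AllRadii
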